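import Pool.Agent.AT2.Stmts
import Pool.Agent.Helper23_AT3.RTC
import Pool.Agent.Helper27_K9.PRT
import Pool.Agent.Helper20_K9.Adp
import Pool.Agent.Helper53_K9.Tra
import Pool.Agent.Helper82_K9.TRB
import Pool.Agent.Helper82_K9.WBO
import Pool.Agent.Helper25_KF.Idm

/-!
# Squad AT2, row FXS (helper67): a bound by the number of the fixed characters
-/

set_option autoImplicit false

open scoped BigOperators

noncomputable section

namespace Pool.Agent.PP.T2.H67

open Pool.Agent.Helper51_AWC Pool.Agent.Helper79_WRA Pool.Agent.PP Pool.Agent.PP.KF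
open Pool.Agent.PP.K9 Pool.Agent.PP.K9.H97 Pool.Agent.PP.H75 Pool.Agent.PP.T3

attribute [local instance] Ideal.Quotient.field

/-- a sum over a predicate -/
theorem fs_filter {α : Type} [Fintype α] (P : α → Prop) [DecidablePred P] (f : α → ℂ) :
    (∑ᶠ (s : α) (_ : P s), f s) = ∑ s ∈ Finset.univ.filter P, f s := by
  rw [finsum_eq_sum_of_fintype, Finset.sum_filter]
  exact Finset.sum_congr rfl fun s _ => finsum_eq_if

open Classical in
/-- a sum over the fibre of the map `g ↦` `ℓ`-part -/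
theorem fibre {ℓ N₀ : ℕ} {G : Type} [Group G] [Fintype G]
    (h1 : ∀ g : G, Reg ℓ (g ^ N₀) ∧ ∃ n : ℕ, ((g ^ N₀)⁻¹ * g) ^ ℓ ^ n = 1)
    (h2 : ∀ x y : G, Commute x y → Reg ℓ x → (∃ n : ℕ, y ^ ℓ ^ n = 1) → (x * y) ^ N₀ = x)
    (T : G → ℂ) (y : G) (hy : El ℓ y) :
    ∑ g ∈ Finset.univ.filter (fun g : G => (g ^ N₀)⁻¹ * g = y), T g =
      ∑ s ∈ Finset.univ.filter (fun s : G => s ∈ Cu y ∧ Reg ℓ s), T (y * s) := by
  symm
  refine Finset.sum_nbij' (fun s => y * s) (fun g => g ^ N₀) ?_ ?_ ?_ ?_ ?_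
  · intro s hs
    rw [Finset.mem_filter] at hs ⊢
    have hc : Commute s y := Subgroup.mem_centralizer_singleton_iff.1 hs.2.1
    have h3 := h2 s y hc hs.2.2 hy
    refine ⟨Finset.mem_univ _, ?_⟩
    rw [← hc.eq, h3, inv_mul_cancel_left]
  · intro g hg
    rw [Finset.mem_filter] at hg ⊢
    refine ⟨Finset.mem_univ _, ?_, (h1 g).1⟩
    rw [Subgroup.mem_centralizer_singleton_iff, ← hg.2]
    have hc : Commute (g ^ N₀) g := (Commute.refl g).pow_left N₀
    exact ((Commute.refl (g ^ N₀)).inv_right.mul_right hc).eq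
  · intro s hs
    rw [Finset.mem_filter] at hs
    have hc : Commute s y := Subgroup.mem_centralizer_singleton_iff.1 hs.2.1
    have h3 := h2 s y hc hs.2.2 hy
    rw [← hc.eq, h3]
  · intro g hg
    rw [Finset.mem_filter] at hg
    have hc : Commute (g ^ N₀) g := (Commute.refl g).pow_left N₀
    rw [← hg.2, mul_assoc, ← hc.eq, inv_mul_cancel_left]
  · intro s _
    rfl

theorem fxs_core (ada : AdaStmt) (wbo : WboStmt) (idm : KF.IdmStmt) (prt : PrtStmt)
    (fxy : FxyStmt) (lrk : LrkStmt) : FxsStmt := by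
  intro ℓ _ M _ hM G _ _ N hN e he hyp
  classical
  have := Fintype.ofFinite G
  have hfi : (Irr G).Finite := irr_finite'
  have hirr : IrrE M e ⊆ Irr G := fun _ h => h.1
  have := (hfi.subset hirr).fintype
  have hG0 : (Nat.card G : ℂ) ≠ 0 := by exact_mod_cast Nat.card_pos.ne'
  have hG1 : (0 : ℝ) < Nat.card G := by exact_mod_cast Nat.card_pos
  obtain ⟨N₀, hN1, hN2⟩ := prt ℓ G
  have hrt := T3.H23.rtc' ada wbo idm ℓ M hM G N hN.cop hN.reg e he
  -- the summands
  obtain ⟨T, hT⟩ : ∃ T : G → ℂ, ∀ g,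
      T g = ∑ χ : IrrE M e, (χ : G → ℂ) (g ^ N) * starRingEnd ℂ ((χ : G → ℂ) g) :=
    ⟨_, fun _ => rfl⟩
  have hfm : ∀ F : (G → ℂ) → ℂ, ∑ᶠ χ ∈ IrrE M e, F χ = ∑ χ : IrrE M e, F χ := fun F => by
    rw [← finsum_eq_sum_of_fintype, finsum_set_coe_eq_finsum_mem]
  -- the number of the fixed characters
  have hA : (Nat.card G : ℂ) * ({χ | χ ∈ IrrE M e ∧ ∀ g, χ (g ^ N) = χ g}.ncard : ℂ) =
      ∑ g, T g := by
    have h1 : ∀ χ : IrrE M e, ∑ g, (χ : G → ℂ) (g ^ N) * starRingEnd ℂ ((χ : G → ℂ) g) =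
        (Nat.card G : ℂ) * if (∀ g, (χ : G → ℂ) (g ^ N) = (χ : G → ℂ) g) then 1 else 0 := by
      intro χ
      by_cases h : ∀ g, (χ : G → ℂ) (g ^ N) = (χ : G → ℂ) g
      · rw [if_pos h]
        have h2 := K9.H11.ipn_self (hirr χ.2)
        rw [K9.H11.ipn_eq] at h2
        simp only [h]
        rw [← h2, mul_inv_cancel_left₀ hG0]
      · rw [if_neg h]
        have h2 := K9.H11.ipn_ne (hrt.1 χ (hirr χ.2)) (hirr χ.2) (fun h3 => h (congrFun h3))
        rw [K9.H11.ipn_eq] at h2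
        rw [mul_zero]
        exact (mul_eq_zero.1 h2).resolve_left (inv_ne_zero hG0)
    simp only [hT]
    rw [Finset.sum_comm]
    simp only [h1]
    rw [← Finset.mul_sum, Finset.sum_ite, Finset.sum_const_zero, add_zero, Finset.sum_const,
      nsmul_eq_mul, mul_one]
    congr 2
    have h3 : {χ | χ ∈ IrrE M e ∧ ∀ g, χ (g ^ N) = χ g} =
        Subtype.val '' ((Finset.univ.filter (fun χ : IrrE M e =>
          ∀ g, (χ : G → ℂ) (g ^ N) = (χ : G → ℂ) g) : Finset (IrrE M e)) : Set (IrrE M e)) := by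
      ext χ
      constructor
      · rintro ⟨h4, h5⟩
        exact ⟨⟨χ, h4⟩, by simpa using h5, rfl⟩
      · rintro ⟨χ', h4, rfl⟩
        exact ⟨χ'.2, by simpa using h4⟩
    rw [h3, Set.ncard_image_of_injective _ Subtype.val_injective, Set.ncard_coe_finset]
  -- the fibres
  have hfib : ∑ g, T g = ∑ y : G, ∑ g ∈ Finset.univ.filter (fun g : G => (g ^ N₀)⁻¹ * g = y), T g :=
    (Finset.sum_fiberwise Finset.univ (fun g : G => (g ^ N₀)⁻¹ * g) T).symm
  have hpow : ∀ y s : G, s ∈ Cu y ∧ Reg ℓ s → (y * s) ^ N = y ^ N * s := by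
    intro y s hs
    have hc : Commute s y := Subgroup.mem_centralizer_singleton_iff.1 hs.1
    rw [hc.symm.mul_pow, hN.reg s hs.2]
  have hnn : ∀ g, 0 ≤ (∑ χ : IrrE M e, (χ : G → ℂ) g * starRingEnd ℂ ((χ : G → ℂ) g)).re := by
    intro g
    rw [Complex.re_sum]
    refine Finset.sum_nonneg fun χ _ => ?_
    rw [Complex.mul_conj, Complex.ofReal_re]
    exact Complex.normSq_nonneg _
  have hy0 : ∀ y : G, 0 ≤ (∑ g ∈ Finset.univ.filter (fun g : G => (g ^ N₀)⁻¹ * g = y), T g).re := by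
    intro y
    by_cases hy : El ℓ y
    · rw [fibre hN1 hN2 T y hy]
      by_cases hyl : y ^ ℓ = 1
      · rw [Complex.re_sum]
        refine Finset.sum_nonneg fun s hs => ?_
        rw [Finset.mem_filter] at hs
        rw [hT, hpow y s hs.2, hN.pow y hy, pow_add, pow_one, hyl, mul_one]
        exact hnn _
      · have hy1 : y ≠ 1 := by
          rintro rfl
          exact hyl (one_pow _)
        have h3 := fxy ℓ M hM G N hN.cop e he y hy1 hy (hyp y hy hyl)
        rw [fs_filter] at h3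
        have h4 : ∑ s ∈ Finset.univ.filter (fun s : G => s ∈ Cu y ∧ Reg ℓ s), T (y * s) = 0 := by
          rw [← h3]
          refine Finset.sum_congr rfl fun s hs => ?_
          rw [Finset.mem_filter] at hs
          rw [hT, hfm, hpow y s hs.2]
        rw [h4, Complex.zero_re]
    · have h3 : Finset.univ.filter (fun g : G => (g ^ N₀)⁻¹ * g = y) = ∅ := by
        rw [Finset.filter_eq_empty_iff]
        intro g _ hg
        exact hy (hg ▸ (hN1 g).2)
      rw [h3, Finset.sum_empty, Complex.zero_re]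
  have h1 : ∑ g ∈ Finset.univ.filter (fun g : G => (g ^ N₀)⁻¹ * g = 1), T g =
      (Nat.card G : ℂ) * (ln e : ℂ) := by
    have hE1 : El ℓ (1 : G) := ⟨0, one_pow _⟩
    rw [fibre hN1 hN2 T 1 hE1, lrk ℓ M hM G e he, fs_filter, mul_inv_cancel_left₀ hG0]
    have h3 : Finset.univ.filter (fun s : G => s ∈ Cu (1 : G) ∧ Reg ℓ s) =
        Finset.univ.filter (fun s : G => Reg ℓ s) := by
      apply Finset.filter_congr
      intro s _
      constructor
      · exact fun h => h.2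
      · intro h
        refine ⟨?_, h⟩
        rw [Subgroup.mem_centralizer_singleton_iff, mul_one, one_mul]
    rw [h3]
    refine Finset.sum_congr rfl fun s hs => ?_
    rw [Finset.mem_filter] at hs
    rw [hT, hfm, one_mul, hN.reg s hs.2]
  have hmain : (Nat.card G : ℝ) * (ln e : ℝ) ≤
      (Nat.card G : ℝ) * ({χ | χ ∈ IrrE M e ∧ ∀ g, χ (g ^ N) = χ g}.ncard : ℝ) := by
    have h3 : ((Nat.card G : ℂ) * ({χ | χ ∈ IrrE M e ∧ ∀ g, χ (g ^ N) = χ g}.ncard : ℂ)).re =
        (Nat.card G : ℝ) * ({χ | χ ∈ IrrE M e ∧ ∀ g, χ (g ^ N) = χ g}.ncard : ℝ) := by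
      norm_cast
    have h4 : ((Nat.card G : ℂ) * (ln e : ℂ)).re = (Nat.card G : ℝ) * (ln e : ℝ) := by
      norm_cast
    rw [← h3, hA, hfib, Complex.re_sum, ← h4, ← h1]
    exact Finset.single_le_sum (f := fun y : G =>
      (∑ g ∈ Finset.univ.filter (fun g : G => (g ^ N₀)⁻¹ * g = y), T g).re)
      (fun y _ => hy0 y) (Finset.mem_univ 1)
  have h5 := le_of_mul_le_mul_left hmain hG1
  exact_mod_cast h5

/-- FXS -/
theorem fxs (fxy : FxyStmt) (lrk : LrkStmt) : FxsStmt :=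
  fxs_core (K9.H25.ada K9.H20.adp) (K9.H82W.wbo (K9.H82.trb K9.H53.tra)) KF.H25.idm K9.H27.prt
    fxy lrk

end Pool.Agent.PP.T2.H67
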